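import Pool.Agent.Helper81.CETwist

/-!
# Two Z-structure boundaries of one group which are not cell-like equivalent

All the notions (`IsEuclideanRetract`, `IsZSet`, `IsZStructure`, `IsZBoundary`, `HasTrivialShape`,
`IsCellLike`, `CellLikeEquivalent`) are defined in `Pool.Agent.Helper81.CEDefs`.

The group is `G₀ × ℤ`, where `G₀` is the group of even words in the three reflections of a
Lorentzian space with `B(N_i, N_i) = 1`, `B(N_i, N_j) = -2` (the free product of three groups of
order two, so that `G₀` is a free group of rank two). It acts on `Th × ℝ`, where `Th` is the
hyperboloid part of the Tits cone (the truncated hyperbolic plane). In Fermi coordinates along one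
boundary geodesic `Th` is the region `0 ≤ e`, `tanh e ≤ ff b`, and the product is compactified over
a disc which is the compactification of the flat over that geodesic. Twisting the disc by the slowly
varying angle `log (1 + log (1 + ρ))` gives again a Z-structure; the untwisted boundary is
path-connected, while in the twisted boundary both ends of every line outside the boundary circle
spiral in the same direction towards that circle.
-/

namespace Pool.Agent.Results.MP_ebfc1a_gt.BoundariesNotCellLike

open ZBdry ZBdry.Tw

/-- There is a group with two Z-structure boundaries which are not cell-like equivalent. -/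
theorem result.{u} : ∃ (G : Type) (_ : Group G) (Z₁ Z₂ : Type) (_ : TopologicalSpace Z₁)
    (_ : TopologicalSpace Z₂), IsZBoundary G Z₁ ∧ IsZBoundary G Z₂ ∧
      ¬ CellLikeEquivalent.{u} Z₁ Z₂ :=
  ⟨Cox.G, inferInstance, ↥(Zt (fun _ => (0 : ℝ))), ↥(Zt tw), inferInstance, inferInstance,
    isZBoundary continuous_const slow_zero, isZBoundary continuous_tw slow_tw,
    Tw.not_cellLikeEquivalent⟩

end Pool.Agent.Results.MP_ebfc1a_gt.BoundariesNotCellLike
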